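import Pool.Agent.Helper19.TGX.Goals
import Pool.Agent.Helper60.T3.Ind

/-!
# Project TGX (MP_a41896_nt), packet GDR: the derivative of a natural map
-/

set_option autoImplicit false

open Polynomial

namespace Pool.Agent.Helper12.TGX.GDR

open WeierstrassCurve
open Pool.Agent.Helper29.BL Pool.Agent.Helper42.SG
open Pool.Agent.Helper60.T3 (WL zd IP)
open Pool.Agent.Helper92.TG (mp)
open Pool.Agent.Helper60.TGX (Val AddF)
open Pool.Agent.Helper19.TGX

noncomputable section

/-- `ψ² = Bf (x)` -/
theorem ps_sq' {F : Type} [Field F] (W : Affine F) (P : W.Point) (hP : P ≠ 0) :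
    ps P ^ 2 = Bf W (xc P) := by
  rcases P with _ | ⟨x, y, h⟩
  · exact absurd rfl hP
  · have h1 : y ^ 2 + W.a₁ * x * y + W.a₃ * y = x ^ 3 + W.a₂ * x ^ 2 + W.a₄ * x + W.a₆ :=
      (Affine.equation_iff _ _).mp h.1
    show (2 * y + W.a₁ * x + W.a₃) ^ 2 = 4 * x ^ 3 + W.b₂ * x ^ 2 + 2 * W.b₄ * x + W.b₆
    simp only [WeierstrassCurve.b₂, WeierstrassCurve.b₄, WeierstrassCurve.b₆]
    linear_combination 4 * h1

section maps

variable {k : Type} [Field k] [CharZero k] (hPTS : PTS) {W W' : Affine k}
  (hW : W.IsElliptic)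

include hPTS hW in
theorem xc_neg (F : Type) [Field F] [DecidableEq F] [Algebra k F] (P : (WL F W).Point) :
    xc (-P) = xc P := by
  haveI : CharZero F := charZero_of_injective_algebraMap (algebraMap k F).injective
  haveI := hW
  exact ((hPTS F (WL F W) inferInstance).2.2 P).1

/-- `g(P) + g(-P)` -/
def gp (g : GMap W W') : GMap W W' where
  f F _ _ _ P := g.f F P + g.f F (-P)
  nat F F' _ _ _ _ _ _ j P hP := by
    have h1 := g.nat F F' j P hP
    have h2 := g.nat F F' j (-P) (by rw [xc_neg hPTS hW F P]; exact hP)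
    have h3 : mp j (-P) = - mp j P := map_neg (Affine.Point.map (W' := W) j) P
    rw [h3] at h2
    show g.f F' (mp j P) + g.f F' (-mp j P) = mp j (g.f F P + g.f F (-P))
    rw [h1, h2]
    exact (map_add (Affine.Point.map (W' := W') j) _ _).symm

/-- `g(P) - g(-P)` -/
def gm (g : GMap W W') : GMap W W' where
  f F _ _ _ P := g.f F P - g.f F (-P)
  nat F F' _ _ _ _ _ _ j P hP := by
    have h1 := g.nat F F' j P hP
    have h2 := g.nat F F' j (-P) (by rw [xc_neg hPTS hW F P]; exact hP)
    have h3 : mp j (-P) = - mp j P := map_neg (Affine.Point.map (W' := W) j) P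
    rw [h3] at h2
    show g.f F' (mp j P) - g.f F' (-mp j P) = mp j (g.f F P - g.f F (-P))
    rw [h1, h2]
    exact (map_sub (Affine.Point.map (W' := W') j) _ _).symm

end maps

/-- the derivative of a map with a formula -/
theorem der {k : Type} [Field k] [CharZero k] (W W' : Affine k)
    (hb : ∀ (F : Type) [Field F] [Algebra k F] (x : F), aeval x (bp W) = Bf (WL F W) x)
    (hb0 : bp W ≠ 0) (A B Q E : k[X]) (hB : B ≠ 0) (hE : E ≠ 0) (a : k)
    (hw : wr A B * E = C a * (B ^ 2 * Q)) (hQ : Q = 0 → a = 0)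
    (F : Type) [Field F] [DecidableEq F] [Algebra k F] (D : Derivation k F F)
    (P : (WL F W).Point) (hP : Transcendental k (xc P)) (R : (WL F W').Point)
    (hR : Val A B Q E P R) : zd D R = algebraMap k F a * zd D P := by
  obtain ⟨-, hu, hv⟩ := hR
  have ne : ∀ p : k[X], p ≠ 0 → aeval (xc P) p ≠ 0 := by
    intro p hp h
    exact hP ⟨p, hp, h⟩
  have hP0 : P ≠ 0 := by
    rintro rfl
    exact hP ⟨X, X_ne_zero, by rw [aeval_X]; rfl⟩
  have hψ : ps P ≠ 0 := by
    intro h
    have h1 := ps_sq' (WL F W) P hP0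
    rw [h, ← hb] at h1
    exact ne _ hb0 (by rw [← h1]; ring)
  have hBx := ne B hB
  have hEx := ne E hE
  by_cases hQ0 : Q = 0
  · have hv0 : ps R = 0 := by
      rw [hQ0, map_zero, zero_mul] at hv
      exact (mul_eq_zero.mp hv).resolve_right hEx
    rw [hQ hQ0, map_zero, zero_mul]
    show D (xc R) / ps R = 0
    rw [hv0, div_zero]
  · have hQx := ne Q hQ0
    have hvne : ps R ≠ 0 := by
      intro h
      rw [h, zero_mul] at hv
      exact mul_ne_zero hQx hψ hv.symm
    have h1 := congrArg D hu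
    rw [Derivation.leibniz, Derivation.map_aeval, Derivation.map_aeval] at h1
    simp only [smul_eq_mul] at h1
    have h2 := congrArg (aeval (xc P)) hw
    unfold wr at h2
    simp only [map_mul, map_sub, map_pow, aeval_C] at h2
    have h3 : D (xc R) * aeval (xc P) B ^ 2 =
        (aeval (xc P) (derivative A) * aeval (xc P) B - aeval (xc P) A *
          aeval (xc P) (derivative B)) * D (xc P) := by
      linear_combination aeval (xc P) B * h1 - aeval (xc P) (derivative B) * D (xc P) * hu
    have h4 : D (xc R) * aeval (xc P) E = algebraMap k F a * aeval (xc P) Q * D (xc P) := by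
      apply mul_left_cancel₀ (pow_ne_zero 2 hBx)
      linear_combination aeval (xc P) E * h3 + D (xc P) * h2
    show D (xc R) / ps R = algebraMap k F a * (D (xc P) / ps P)
    rw [mul_div_assoc', div_eq_div_iff hvne hψ]
    apply mul_left_cancel₀ hEx
    linear_combination ps P * h4 - algebraMap k F a * D (xc P) * hv

theorem t (hGFO : GFO) (hGFE : GFE) (hCRP : CRP) (hBPF : BPF) (hPTS : PTS) (hMPX : MPX) :
    GDR := by
  intro k _ _ _ W W' hW hW' g
  haveI := hW
  haveI := hW'
  letI : DecidableEq k := Classical.decEq k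
  obtain ⟨hdeg, -, -, hsq, hb, -⟩ := hBPF k W hW
  have hb0 : bp W ≠ 0 := by
    intro h
    rw [h, natDegree_zero] at hdeg
    omega
  -- the even part
  obtain ⟨s, hs⟩ := hGFE k W W' hW hW' (gp hPTS hW g) (by
    intro F _ _ _ P hP
    show g.f F (-P) + g.f F (- -P) = g.f F P + g.f F (-P)
    rw [neg_neg, add_comm])
  have hp0 : ∀ (F : Type) [Field F] [DecidableEq F] [Algebra k F] (D : Derivation k F F)
      (P : (WL F W).Point), Transcendental k (xc P) → zd D (g.f F P + g.f F (-P)) = 0 := by
    intro F _ _ _ D P hP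
    have h1 : g.f F P + g.f F (-P) = mp (Algebra.ofId k F) s := hs F P hP
    rw [h1]
    show D (xc (mp (Algebra.ofId k F) s)) / _ = 0
    rw [(hMPX k W' k F (Algebra.ofId k F) s).1]
    have h2 : D ((Algebra.ofId k F) (xc s)) = 0 := Derivation.map_algebraMap D (xc s)
    rw [h2, zero_div]
  -- the odd part
  obtain ⟨a, ha⟩ : ∃ a : k, ∀ (F : Type) [Field F] [DecidableEq F] [Algebra k F]
      (D : Derivation k F F) (P : (WL F W).Point), Transcendental k (xc P) →
        zd D (g.f F P - g.f F (-P)) = algebraMap k F a * zd D P := by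
    rcases hGFO k W W' hW hW' (gm hPTS hW g) (by
      intro F _ _ _ P hP
      show g.f F (-P) - g.f F (- -P) = -(g.f F P - g.f F (-P))
      rw [neg_neg, neg_sub]) with h | ⟨A, B, Q, E, hc, hB, hE, hV, hid⟩
    · refine ⟨0, fun F _ _ _ D P hP => ?_⟩
      have h1 : g.f F P - g.f F (-P) = 0 := h F P hP
      rw [h1, map_zero, zero_mul]
      show D (xc (0 : (WL F W').Point)) / _ = 0
      rw [xc_zero, map_zero, zero_div]
    · obtain ⟨N, hN1, hN2⟩ := hCRP k W' hW' A B Q E (bp W) hc hB hE hsq hid
      have hNC : N = C (N.coeff 0) := by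
        by_cases h : N = 0
        · rw [h]; simp
        · have := hN2 h
          rw [hdeg] at this
          exact eq_C_of_natDegree_eq_zero (by omega)
      by_cases hQ : Q = 0
      · refine ⟨0, fun F _ _ _ D P hP => ?_⟩
        refine der W W' hb hb0 A B Q E hB hE 0 ?_ (fun _ => rfl) F D P hP _ (hV F P hP)
        rw [hN1, hQ]; simp
      · refine ⟨N.coeff 0, fun F _ _ _ D P hP => ?_⟩
        refine der W W' hb hb0 A B Q E hB hE (N.coeff 0) ?_ (fun h => absurd h hQ) F D P hP _
          (hV F P hP)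
        rw [← hNC]; exact hN1
  refine ⟨a / 2, fun F _ _ _ D P hP => ?_⟩
  haveI : CharZero F := charZero_of_injective_algebraMap (algebraMap k F).injective
  have hadd := Pool.Agent.Helper60.T3.th_DADD k F W' D
  have h1 : g.f F P + g.f F P = (g.f F P + g.f F (-P)) + (g.f F P - g.f F (-P)) := by abel
  have h2 := hadd (g.f F P) (g.f F P)
  rw [h1, hadd, hp0 F D P hP, ha F D P hP] at h2
  rw [map_div₀, map_ofNat]
  linear_combination (-1 / 2) * h2

end

end Pool.Agent.Helper12.TGX.GDR
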